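import Mathlib

set_option autoImplicit false

/-!
# Strong vertex span and strong edge span: definitions
-/

namespace Pool.Agent.N448.Span

variable {A B : Type*}

/-- `f` is a weak homomorphism from `G` to `H`: adjacent vertices have equal or adjacent images. -/
def IsWeakHom (G : SimpleGraph A) (H : SimpleGraph B) (f : A → B) : Prop :=
  ∀ u v : A, G.Adj u v → f u = f v ∨ H.Adj (f u) (f v)

/-- `f` is edge surjective: it is surjective, and every edge `u v` of `H` arises as `u = f x`,
`v = f y` for some edge `x y` of `G`. -/
def EdgeSurjective (G : SimpleGraph A) (H : SimpleGraph B) (f : A → B) : Prop :=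
  Function.Surjective f ∧ ∀ u v : B, H.Adj u v → ∃ x y : A, G.Adj x y ∧ f x = u ∧ f y = v

/-- `m_G(f, g)`: the least distance in `H` between `f u` and `g u`. -/
noncomputable def minDist (H : SimpleGraph B) (f g : A → B) : ℕ :=
  ⨅ u : A, H.dist (f u) (g u)

/-- The strong vertex span `σ_V(H)`: the maximum of `m_P(f, g)` over all paths `P` and all pairs of
surjective weak homomorphisms `f, g : P → H`. -/
noncomputable def vertexSpan (H : SimpleGraph B) : ℕ :=
  sSup {m : ℕ | ∃ (n : ℕ) (f g : Fin n → B),
    IsWeakHom (SimpleGraph.pathGraph n) H f ∧ IsWeakHom (SimpleGraph.pathGraph n) H g ∧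
    Function.Surjective f ∧ Function.Surjective g ∧ m = minDist H f g}

/-- The strong edge span `σ_E(H)`: the maximum of `m_P(f, g)` over all paths `P` and all pairs of
edge surjective weak homomorphisms `f, g : P → H`. -/
noncomputable def edgeSpan (H : SimpleGraph B) : ℕ :=
  sSup {m : ℕ | ∃ (n : ℕ) (f g : Fin n → B),
    IsWeakHom (SimpleGraph.pathGraph n) H f ∧ IsWeakHom (SimpleGraph.pathGraph n) H g ∧
    EdgeSurjective (SimpleGraph.pathGraph n) H f ∧ EdgeSurjective (SimpleGraph.pathGraph n) H g ∧
    m = minDist H f g}

end Pool.Agent.N448.Span
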