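import Mathlib
import Pool.Agent.N448.Span.Defs

set_option autoImplicit false

/-!
# `σ_V(H) ≤ σ_E(H) + 1`
-/

namespace Pool.Agent.N448.Span

open SimpleGraph

variable {V : Type*} {H : SimpleGraph V}

/-- The graph of the pairs of positions at distance at least `k`. -/
def stateGraph (H : SimpleGraph V) (k : ℕ) : SimpleGraph (V × V) where
  Adj p q := p ≠ q ∧ (p.1 = q.1 ∨ H.Adj p.1 q.1) ∧ (p.2 = q.2 ∨ H.Adj p.2 q.2) ∧
    k ≤ H.dist p.1 p.2 ∧ k ≤ H.dist q.1 q.2
  symm := ⟨fun p q h => ⟨h.1.symm, h.2.1.imp Eq.symm Adj.symm, h.2.2.1.imp Eq.symm Adj.symm,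
    h.2.2.2.2, h.2.2.2.1⟩⟩
  loopless := ⟨fun p h => h.1 rfl⟩

/-- The walk traverses `p q`. -/
def Trav {W : Type*} {Γ : SimpleGraph W} {a b : W} (w : Γ.Walk a b) (p q : W) : Prop :=
  ∃ i < w.length, w.getVert i = p ∧ w.getVert (i + 1) = q

lemma Trav.append_left {W : Type*} {Γ : SimpleGraph W} {a b c : W} {w : Γ.Walk a b} {p q : W}
    (h : Trav w p q) (w' : Γ.Walk b c) : Trav (w.append w') p q := by
  obtain ⟨i, hi, h1, h2⟩ := h
  refine ⟨i, by rw [Walk.length_append]; omega, ?_, ?_⟩
  · rw [Walk.getVert_append, if_pos hi, h1]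
  · rw [Walk.getVert_append]
    split_ifs with h3
    · exact h2
    · have h4 : i + 1 = w.length := by omega
      rw [h4, Nat.sub_self, Walk.getVert_zero]
      rw [h4, Walk.getVert_length] at h2
      exact h2

lemma Trav.append_right {W : Type*} {Γ : SimpleGraph W} {a b c : W} (w : Γ.Walk a b) {p q : W}
    {w' : Γ.Walk b c} (h : Trav w' p q) : Trav (w.append w') p q := by
  obtain ⟨i, hi, h1, h2⟩ := h
  refine ⟨w.length + i, by rw [Walk.length_append]; omega, ?_, ?_⟩
  · rw [Walk.getVert_append, if_neg (by omega), Nat.add_sub_cancel_left, h1]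
  · rw [Walk.getVert_append, if_neg (by omega), Nat.add_assoc, Nat.add_sub_cancel_left, h2]

lemma cover {W : Type*} {Γ : SimpleGraph W} (a : W) (L : List (W × W))
    (hL : ∀ d ∈ L, Γ.Reachable a d.1 ∧ Γ.Adj d.1 d.2) :
    ∃ (b : W) (w : Γ.Walk a b), ∀ d ∈ L, Trav w d.1 d.2 := by
  induction L with
  | nil => exact ⟨a, Walk.nil, by simp⟩
  | cons d L ih =>
    obtain ⟨b, w, hw⟩ := ih (fun e he => hL e (List.mem_cons_of_mem _ he))
    obtain ⟨h1, h2⟩ := hL d List.mem_cons_self
    obtain ⟨w1⟩ : Γ.Reachable b d.1 := (Walk.reachable w).symm.trans h1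
    refine ⟨d.2, (w.append w1).append (Walk.cons h2 Walk.nil), ?_⟩
    intro e he
    rcases List.mem_cons.1 he with rfl | he
    · apply Trav.append_right
      exact ⟨0, by simp, by simp, by simp⟩
    · exact ((hw e he).append_left _).append_left _

lemma coverVerts {W : Type*} {Γ : SimpleGraph W} (a : W) (L : List W)
    (hL : ∀ d ∈ L, Γ.Reachable a d) :
    ∃ (b : W) (w : Γ.Walk a b), ∀ d ∈ L, d ∈ w.support := by
  induction L with
  | nil => exact ⟨a, Walk.nil, by simp⟩
  | cons d L ih =>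
    obtain ⟨b, w, hw⟩ := ih (fun e he => hL e (List.mem_cons_of_mem _ he))
    obtain ⟨w1⟩ : Γ.Reachable b d := (Walk.reachable w).symm.trans (hL d List.mem_cons_self)
    refine ⟨d, w.append w1, ?_⟩
    intro e he
    rw [Walk.mem_support_append_iff]
    rcases List.mem_cons.1 he with rfl | he
    · exact Or.inr (Walk.end_mem_support _)
    · exact Or.inl (hw e he)

lemma dist_le_card [Finite V] (hH : H.Connected) (a b : V) : H.dist a b ≤ Nat.card V := by
  classical
  have := Fintype.ofFinite V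
  obtain ⟨p, hp, hl⟩ := hH.exists_path_of_dist a b
  have := hp.length_lt
  rw [Nat.card_eq_fintype_card]
  omega

lemma minDist_le {A : Type*} (f g : A → V) (u : A) : minDist H f g ≤ H.dist (f u) (g u) :=
  ciInf_le (OrderBot.bddBelow _) u

lemma le_minDist {A : Type*} [Nonempty A] (f g : A → V) {k : ℕ} (h : ∀ u, k ≤ H.dist (f u) (g u)) :
    k ≤ minDist H f g :=
  le_ciInf h

lemma minDist_bdd [Finite V] (hH : H.Connected) {A : Type*} [Nonempty A] (f g : A → V) :
    minDist H f g ≤ Nat.card V :=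
  (minDist_le f g (Classical.arbitrary A)).trans (dist_le_card hH _ _)

lemma nonempty_of_surj (hH : H.Connected) {n : ℕ} {f : Fin n → V} (hf : Function.Surjective f) :
    Nonempty (Fin n) := by
  obtain ⟨v⟩ := hH.nonempty
  obtain ⟨i, _⟩ := hf v
  exact ⟨i⟩

lemma vertex_bdd [Finite V] (hH : H.Connected) :
    BddAbove {m : ℕ | ∃ (n : ℕ) (f g : Fin n → V),
      IsWeakHom (pathGraph n) H f ∧ IsWeakHom (pathGraph n) H g ∧
      Function.Surjective f ∧ Function.Surjective g ∧ m = minDist H f g} := by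
  refine ⟨Nat.card V, ?_⟩
  rintro m ⟨n, f, g, -, -, hf, -, rfl⟩
  have := nonempty_of_surj hH hf
  exact minDist_bdd hH f g

lemma edge_bdd [Finite V] (hH : H.Connected) :
    BddAbove {m : ℕ | ∃ (n : ℕ) (f g : Fin n → V),
      IsWeakHom (pathGraph n) H f ∧ IsWeakHom (pathGraph n) H g ∧
      EdgeSurjective (pathGraph n) H f ∧ EdgeSurjective (pathGraph n) H g ∧
      m = minDist H f g} := by
  refine ⟨Nat.card V, ?_⟩
  rintro m ⟨n, f, g, -, -, hf, -, rfl⟩
  have := nonempty_of_surj hH hf.1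
  exact minDist_bdd hH f g

/-- Every span is attained by a pair of walks from a walk in the graph of states. -/
lemma exists_pair [Finite V] (hH : H.Connected) {k : ℕ} {p : V × V} (hp : k ≤ H.dist p.1 p.2)
    (h1 : ∀ v, ∃ s : V × V, s.1 = v ∧ (stateGraph H k).Reachable p s)
    (h2 : ∀ v, ∃ s : V × V, s.2 = v ∧ (stateGraph H k).Reachable p s)
    (h3 : ∀ u v, H.Adj u v → ∃ s t : V × V, s.1 = u ∧ t.1 = v ∧ (stateGraph H k).Reachable p s ∧
      (stateGraph H k).Adj s t)
    (h4 : ∀ u v, H.Adj u v → ∃ s t : V × V, s.2 = u ∧ t.2 = v ∧ (stateGraph H k).Reachable p s ∧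
      (stateGraph H k).Adj s t) : k ≤ edgeSpan H := by
  classical
  have := Fintype.ofFinite V
  choose s1 hs1 hs1' using h1
  choose s2 hs2 hs2' using h2
  obtain ⟨b, w1, hw1⟩ := coverVerts (Γ := stateGraph H k) p
    ((Finset.univ.image s1 ∪ Finset.univ.image s2).toList) (by
      intro d hd
      rw [Finset.mem_toList, Finset.mem_union, Finset.mem_image, Finset.mem_image] at hd
      rcases hd with ⟨v, -, rfl⟩ | ⟨v, -, rfl⟩
      · exact hs1' v
      · exact hs2' v)
  obtain ⟨c, w2, hw2⟩ := cover (Γ := stateGraph H k) b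
    (((Finset.univ : Finset ((V × V) × (V × V))).filter fun d =>
      (stateGraph H k).Reachable p d.1 ∧ (stateGraph H k).Adj d.1 d.2).toList) (by
      intro d hd
      rw [Finset.mem_toList, Finset.mem_filter] at hd
      exact ⟨(Walk.reachable w1).symm.trans hd.2.1, hd.2.2⟩)
  set w := w1.append w2 with hw
  have hstate : ∀ i, k ≤ H.dist (w.getVert i).1 (w.getVert i).2 := by
    intro i
    rcases Nat.lt_or_ge i w.length with h | h
    · exact (w.adj_getVert_succ h).2.2.2.1
    · rw [Walk.getVert_of_length_le _ h]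
      rcases Nat.eq_zero_or_pos w.length with h0 | h0
      · have h5 : w.getVert w.length = w.getVert 0 := by rw [h0]
        rw [Walk.getVert_length, Walk.getVert_zero] at h5
        rw [h5]
        exact hp
      · have h5 := w.adj_getVert_succ (i := w.length - 1) (by omega)
        rw [Nat.sub_add_cancel h0, Walk.getVert_length] at h5
        exact h5.2.2.2.2
  have hstep : ∀ i, i < w.length → (stateGraph H k).Adj (w.getVert i) (w.getVert (i + 1)) :=
    fun i hi => w.adj_getVert_succ hi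
  set n := w.length + 1 with hn
  set f : Fin n → V := fun i => (w.getVert i).1 with hf
  set g : Fin n → V := fun i => (w.getVert i).2 with hg
  have hfw : IsWeakHom (pathGraph n) H f := by
    intro u v huv
    rw [pathGraph_adj] at huv
    rcases huv with huv | huv
    · have h5 := hstep u (by have := v.2; omega)
      rw [huv] at h5
      exact h5.2.1
    · have h5 := hstep v (by have := u.2; omega)
      rw [huv] at h5
      exact h5.2.1.imp Eq.symm Adj.symm
  have hgw : IsWeakHom (pathGraph n) H g := by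
    intro u v huv
    rw [pathGraph_adj] at huv
    rcases huv with huv | huv
    · have h5 := hstep u (by have := v.2; omega)
      rw [huv] at h5
      exact h5.2.2.1
    · have h5 := hstep v (by have := u.2; omega)
      rw [huv] at h5
      exact h5.2.2.1.imp Eq.symm Adj.symm
  have hmem : ∀ s ∈ w1.support, ∃ i : Fin n, w.getVert i = s := by
    intro s hs
    have h5 : s ∈ w.support := by
      rw [hw, Walk.mem_support_append_iff]
      exact Or.inl hs
    rw [Walk.mem_support_iff_exists_getVert] at h5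
    obtain ⟨i, hi, hi'⟩ := h5
    exact ⟨⟨i, by omega⟩, hi⟩
  have htrav : ∀ s t : V × V, (stateGraph H k).Reachable p s → (stateGraph H k).Adj s t →
      ∃ x y : Fin n, (pathGraph n).Adj x y ∧ w.getVert x = s ∧ w.getVert y = t := by
    intro s t h5 h6
    have h7 : Trav w s t := by
      rw [hw]
      apply Trav.append_right
      exact hw2 (s, t) (by rw [Finset.mem_toList, Finset.mem_filter]; exact ⟨Finset.mem_univ _, h5, h6⟩)
    obtain ⟨i, hi, h8, h9⟩ := h7
    refine ⟨⟨i, by omega⟩, ⟨i + 1, by omega⟩, ?_, h8, h9⟩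
    rw [pathGraph_adj]
    left
    rfl
  have hfs : EdgeSurjective (pathGraph n) H f := by
    constructor
    · intro v
      obtain ⟨i, hi⟩ := hmem (s1 v) (hw1 _ (by simp))
      refine ⟨i, ?_⟩
      show (w.getVert i).1 = v
      rw [hi, hs1]
    · intro u v huv
      obtain ⟨s, t, h5, h6, h7, h8⟩ := h3 u v huv
      obtain ⟨x, y, h9, h10, h11⟩ := htrav s t h7 h8
      refine ⟨x, y, h9, ?_, ?_⟩
      · show (w.getVert x).1 = u
        rw [h10, h5]
      · show (w.getVert y).1 = v
        rw [h11, h6]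
  have hgs : EdgeSurjective (pathGraph n) H g := by
    constructor
    · intro v
      obtain ⟨i, hi⟩ := hmem (s2 v) (hw1 _ (by simp))
      refine ⟨i, ?_⟩
      show (w.getVert i).2 = v
      rw [hi, hs2]
    · intro u v huv
      obtain ⟨s, t, h5, h6, h7, h8⟩ := h4 u v huv
      obtain ⟨x, y, h9, h10, h11⟩ := htrav s t h7 h8
      refine ⟨x, y, h9, ?_, ?_⟩
      · show (w.getVert x).2 = u
        rw [h10, h5]
      · show (w.getVert y).2 = v
        rw [h11, h6]
  refine le_trans (le_minDist (H := H) f g fun i => hstate i) ?_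
  exact le_csSup (edge_bdd hH) ⟨n, f, g, hfw, hgw, hfs, hgs, rfl⟩

lemma reach_of_pair {k n : ℕ} {f g : Fin n → V} (hf : IsWeakHom (pathGraph n) H f)
    (hg : IsWeakHom (pathGraph n) H g) (hd : ∀ i, k ≤ H.dist (f i) (g i)) (h0 : 0 < n) :
    ∀ (i : ℕ) (hi : i < n), (stateGraph H k).Reachable (f ⟨0, h0⟩, g ⟨0, h0⟩) (f ⟨i, hi⟩, g ⟨i, hi⟩) := by
  intro i
  induction i with
  | zero => intro hi; exact Reachable.refl _
  | succ i ih =>
    intro hi
    refine (ih (by omega)).trans ?_
    by_cases heq : (f ⟨i, by omega⟩, g ⟨i, by omega⟩) = (f ⟨i + 1, hi⟩, g ⟨i + 1, hi⟩)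
    · rw [heq]
    · have hadj : (pathGraph n).Adj (⟨i, by omega⟩ : Fin n) ⟨i + 1, hi⟩ := by
        rw [pathGraph_adj]
        left
        rfl
      exact Adj.reachable (G := stateGraph H k) ⟨heq, hf _ _ hadj, hg _ _ hadj, hd _, hd _⟩

lemma dist_ge_sub (hH : H.Connected) {u v b : V} (huv : H.Adj u v) {k : ℕ} (h : k + 1 ≤ H.dist u b) :
    k ≤ H.dist v b := by
  have h1 := hH.dist_triangle (u := u) (v := v) (w := b)
  have h2 : H.dist u v = 1 := dist_eq_one_iff_adj.2 huv
  omega

theorem vertexSpan_le [Finite V] (hH : H.Connected) : vertexSpan H ≤ edgeSpan H + 1 := by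
  rcases Set.eq_empty_or_nonempty {m : ℕ | ∃ (n : ℕ) (f g : Fin n → V),
      IsWeakHom (pathGraph n) H f ∧ IsWeakHom (pathGraph n) H g ∧
      Function.Surjective f ∧ Function.Surjective g ∧ m = minDist H f g} with he | hne
  · unfold vertexSpan
    rw [he, csSup_empty]
    exact Nat.zero_le _
  obtain ⟨n, f, g, hf, hg, hfs, hgs, hm⟩ := Nat.sSup_mem hne (vertex_bdd hH)
  change vertexSpan H = _ at hm
  rcases Nat.eq_zero_or_pos (vertexSpan H) with h0 | hpos
  · omega
  obtain ⟨k, hk⟩ : ∃ k, vertexSpan H = k + 1 := ⟨vertexSpan H - 1, by omega⟩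
  have hd : ∀ i, k + 1 ≤ H.dist (f i) (g i) := by
    intro i
    rw [← hk, hm]
    exact minDist_le f g i
  have hn : 0 < n := by
    obtain ⟨i⟩ := nonempty_of_surj hH hfs
    exact i.pos
  have hr : ∀ i : Fin n, (stateGraph H k).Reachable (f ⟨0, hn⟩, g ⟨0, hn⟩) (f i, g i) :=
    fun i => reach_of_pair hf hg (fun i => (Nat.le_succ k).trans (hd i)) hn i i.2
  rw [hk]
  apply Nat.succ_le_succ
  refine exists_pair hH (p := (f ⟨0, hn⟩, g ⟨0, hn⟩)) ((Nat.le_succ k).trans (hd _)) ?_ ?_ ?_ ?_
  · intro v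
    obtain ⟨i, hi⟩ := hfs v
    exact ⟨(f i, g i), hi, hr i⟩
  · intro v
    obtain ⟨i, hi⟩ := hgs v
    exact ⟨(f i, g i), hi, hr i⟩
  · intro u v huv
    obtain ⟨i, hi⟩ := hfs u
    refine ⟨(f i, g i), (v, g i), hi, rfl, hr i, ?_, ?_, Or.inl rfl, (Nat.le_succ k).trans (hd i), ?_⟩
    · intro h
      have h1 := congrArg Prod.fst h
      simp only at h1
      rw [hi] at h1
      exact huv.ne h1
    · right
      show H.Adj (f i) v
      rw [hi]
      exact huv
    · refine dist_ge_sub hH huv ?_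
      rw [← hi]
      exact hd i
  · intro u v huv
    obtain ⟨i, hi⟩ := hgs u
    refine ⟨(f i, g i), (f i, v), hi, rfl, hr i, ?_, Or.inl rfl, ?_, (Nat.le_succ k).trans (hd i), ?_⟩
    · intro h
      have h1 := congrArg Prod.snd h
      simp only at h1
      rw [hi] at h1
      exact huv.ne h1
    · right
      show H.Adj (g i) v
      rw [hi]
      exact huv
    · show k ≤ H.dist (f i) v
      rw [SimpleGraph.dist_comm]
      refine dist_ge_sub hH huv ?_
      rw [← hi, SimpleGraph.dist_comm]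
      exact hd i

theorem edgeSpan_le [Finite V] (hH : H.Connected) : edgeSpan H ≤ vertexSpan H := by
  rcases Set.eq_empty_or_nonempty {m : ℕ | ∃ (n : ℕ) (f g : Fin n → V),
      IsWeakHom (pathGraph n) H f ∧ IsWeakHom (pathGraph n) H g ∧
      EdgeSurjective (pathGraph n) H f ∧ EdgeSurjective (pathGraph n) H g ∧
      m = minDist H f g} with he | hne
  · unfold edgeSpan
    rw [he, csSup_empty]
    exact Nat.zero_le _
  obtain ⟨n, f, g, hf, hg, hfs, hgs, hm⟩ := Nat.sSup_mem hne (edge_bdd hH)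
  exact le_csSup (vertex_bdd hH) ⟨n, f, g, hf, hg, hfs.1, hgs.1, hm⟩

end Pool.Agent.N448.Span
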