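import Mathlib
import Pool.Agent.N448.Span.Main

set_option autoImplicit false

/-!
# A graph with `σ_V = 2` and `σ_E = 1`
-/

namespace Pool.Agent.N448.Span

open SimpleGraph

/-- The edges `01, 03, 04, 05, 12, 13, 14, 23, 24`. -/
def adj6 (a b : Fin 6) : Bool :=
  match a.val, b.val with
  | 0, 1 | 0, 3 | 0, 4 | 0, 5 | 1, 2 | 1, 3 | 1, 4 | 2, 3 | 2, 4 => true
  | 1, 0 | 3, 0 | 4, 0 | 5, 0 | 2, 1 | 3, 1 | 4, 1 | 3, 2 | 4, 2 => true
  | _, _ => false

/-- The graph with six vertices. -/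
def H6 : SimpleGraph (Fin 6) where
  Adj a b := adj6 a b = true
  symm := ⟨by decide⟩
  loopless := ⟨by decide⟩

instance : DecidableRel H6.Adj := fun a b => inferInstanceAs (Decidable (adj6 a b = true))

lemma H6_conn : H6.Connected := by
  have h0 : ∀ v : Fin 6, H6.Reachable 0 v := by
    have h1 : ∀ v : Fin 6, v = 0 ∨ H6.Adj 0 v ∨ (H6.Adj 0 1 ∧ H6.Adj 1 v) := by decide
    intro v
    rcases h1 v with rfl | h | ⟨h, h'⟩
    · exact Reachable.refl _
    · exact h.reachable
    · exact h.reachable.trans h'.reachable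
  exact ⟨fun u v => (h0 u).symm.trans (h0 v)⟩

lemma two_le_dist {a b : Fin 6} : 2 ≤ H6.dist a b ↔ a ≠ b ∧ ¬ H6.Adj a b := by
  constructor
  · intro h
    constructor
    · rintro rfl
      rw [dist_self] at h
      omega
    · intro h1
      rw [← dist_eq_one_iff_adj] at h1
      omega
  · rintro ⟨h1, h2⟩
    have h3 : H6.dist a b ≠ 0 := fun h => h1 ((H6_conn.dist_eq_zero_iff).1 h)
    have h4 : H6.dist a b ≠ 1 := fun h => h2 (dist_eq_one_iff_adj.1 h)
    omega

lemma vertex_ge : 2 ≤ vertexSpan H6 := by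
  set f : Fin 7 → Fin 6 := ![1, 2, 3, 0, 4, 0, 5] with hf
  set g : Fin 7 → Fin 6 := ![5, 0, 4, 2, 3, 2, 1] with hg
  have hd : ∀ i, 2 ≤ H6.dist (f i) (g i) := by
    intro i
    rw [two_le_dist]
    revert i
    decide
  have hw : ∀ φ : Fin 7 → Fin 6, (∀ i : Fin 6, φ i.castSucc = φ i.succ ∨
      H6.Adj (φ i.castSucc) (φ i.succ)) → IsWeakHom (pathGraph 7) H6 φ := by
    intro φ h u v huv
    rw [pathGraph_adj] at huv
    rcases huv with huv | huv
    · have h1 := h ⟨u, by have := v.2; omega⟩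
      have h2 : (⟨u, by have := v.2; omega⟩ : Fin 6).succ = v := Fin.ext huv
      rw [h2] at h1
      exact h1
    · have h1 := h ⟨v, by have := u.2; omega⟩
      have h2 : (⟨v, by have := u.2; omega⟩ : Fin 6).succ = u := Fin.ext huv
      rw [h2] at h1
      exact h1.imp Eq.symm Adj.symm
  refine le_trans (le_minDist (H := H6) f g hd) ?_
  exact le_csSup (vertex_bdd H6_conn) ⟨7, f, g, hw f (by decide), hw g (by decide),
    by decide, by decide, rfl⟩

lemma edge_le : edgeSpan H6 ≤ 1 := by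
  apply csSup_le'
  rintro m ⟨n, f, g, hf, hg, hfs, hgs, rfl⟩
  by_contra hcon
  push Not at hcon
  have hd : ∀ i, 2 ≤ H6.dist (f i) (g i) := fun i => le_trans hcon (minDist_le f g i)
  obtain ⟨x, y, hxy, hx, hy⟩ := hfs.2 0 1 (by decide)
  have h1 := hd x
  have h2 := hd y
  have h3 := hg x y hxy
  rw [two_le_dist, hx] at h1
  rw [two_le_dist, hy] at h2
  generalize g x = b at *
  generalize g y = b' at *
  revert b b'
  decide

end Pool.Agent.N448.Span
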